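import Pool.Agent.helper34.NTA.Spec

/-!
Project NTA (MP_4536c8_co), row FRT (spec of helper34): the first return map. Seat helper24.
-/

set_option autoImplicit false

namespace Pool.Agent.NTA

open Equiv

theorem FRT : FRT_stmt := by
  classical
  intro D _ ψ B hB
  have hex : ∀ b : B, ∃ t : ℕ, 1 ≤ t ∧ (ψ ^ t) (b : D) ∈ B := by
    intro b
    obtain ⟨m, hm⟩ := hB (ψ (b : D))
    refine ⟨m + 1, by omega, ?_⟩
    rw [pow_succ, Perm.mul_apply]
    exact hm
  let t : B → ℕ := fun b => Nat.find (hex b)
  have ht1 : ∀ b, 1 ≤ t b := fun b => (Nat.find_spec (hex b)).1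
  have htB : ∀ b : B, (ψ ^ t b) (b : D) ∈ B := fun b => (Nat.find_spec (hex b)).2
  have hmin : ∀ (b : B) (u : ℕ), 1 ≤ u → u < t b → (ψ ^ u) (b : D) ∉ B := by
    intro b u hu hut h
    exact Nat.find_min (hex b) hut ⟨hu, h⟩
  let τ₀ : B → B := fun b => ⟨(ψ ^ t b) (b : D), htB b⟩
  have key : ∀ b b' : B, τ₀ b = τ₀ b' → t b ≤ t b' → b = b' := by
    intro b b' h hle
    have h1 : (ψ ^ t b) (b : D) = (ψ ^ t b') (b' : D) := congrArg Subtype.val h
    have h2 : (ψ ^ t b') (b' : D) = (ψ ^ t b) ((ψ ^ (t b' - t b)) (b' : D)) := by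
      rw [← Perm.mul_apply, ← pow_add]
      congr 2
      omega
    rw [h2] at h1
    have h3 : (b : D) = (ψ ^ (t b' - t b)) (b' : D) := (ψ ^ t b).injective h1
    rcases Nat.eq_zero_or_pos (t b' - t b) with h4 | h4
    · rw [h4, pow_zero, Perm.one_apply] at h3
      exact Subtype.ext h3
    · exfalso
      have h5 := ht1 b
      refine hmin b' (t b' - t b) h4 (by omega) ?_
      rw [← h3]
      exact b.2
  have hinj : Function.Injective τ₀ := by
    intro b b' h
    rcases le_total (t b) (t b') with hle | hle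
    · exact key b b' h hle
    · exact (key b' b h.symm hle).symm
  have hbij : Function.Bijective τ₀ := Finite.injective_iff_bijective.1 hinj
  let τ : Perm B := Equiv.ofBijective τ₀ hbij
  have hτ : ∀ b : B, ((τ b : B) : D) = (ψ ^ t b) (b : D) := fun b => rfl
  have hsc1 : ∀ b b' : B, Perm.SameCycle τ b b' → Perm.SameCycle ψ (b : D) (b' : D) := by
    intro b b' h
    obtain ⟨n, hn⟩ := h.exists_nat_pow_eq
    have h1 : ∀ n : ℕ, Perm.SameCycle ψ (b : D) (((τ ^ n) b : B) : D) := by
      intro n
      induction n with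
      | zero => exact Perm.SameCycle.refl _ _
      | succ n ih =>
        rw [pow_succ', Perm.mul_apply]
        refine ih.trans ?_
        rw [hτ]
        exact ⟨(t ((τ ^ n) b) : ℤ), by rw [zpow_natCast]⟩
    have h2 := h1 n
    rw [hn] at h2
    exact h2
  have hsc2 : ∀ (m : ℕ) (b b' : B), (ψ ^ m) (b : D) = (b' : D) → Perm.SameCycle τ b b' := by
    intro m
    induction m using Nat.strong_induction_on with
    | _ m ih =>
      intro b b' h
      rcases Nat.eq_zero_or_pos m with h0 | h0
      · rw [h0, pow_zero, Perm.one_apply] at h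
        rw [Subtype.ext h]
      · have hle : t b ≤ m := by
          by_contra hlt
          refine hmin b m h0 (by omega) ?_
          rw [h]
          exact b'.2
        have h1 := ht1 b
        have h2 : (ψ ^ (m - t b)) ((τ b : B) : D) = (b' : D) := by
          rw [hτ, ← Perm.mul_apply, ← pow_add]
          rw [← h]
          congr 2
          omega
        have h3 := ih (m - t b) (by omega) (τ b) b' h2
        have h4 : Perm.SameCycle τ b (τ b) := ⟨1, by rw [zpow_one]⟩
        exact h4.trans h3
  refine ⟨τ, ?_, fun b => ⟨t b, ht1 b, hτ b, hmin b⟩⟩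
  unfold cyc
  refine Nat.card_congr (Equiv.ofBijective (Quotient.map' (s₁ := Perm.SameCycle.setoid τ)
    (s₂ := Perm.SameCycle.setoid ψ) (fun b : B => (b : D)) (fun b b' h => hsc1 b b' h)) ⟨?_, ?_⟩)
  · intro x y
    induction x using Quotient.inductionOn' with
    | h b =>
      induction y using Quotient.inductionOn' with
      | h b' =>
        intro h
        rw [Quotient.map'_mk'', Quotient.map'_mk''] at h
        have h1 : Perm.SameCycle ψ (b : D) (b' : D) := Quotient.exact' h
        obtain ⟨n, hn⟩ := h1.exists_nat_pow_eq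
        exact Quotient.sound' (hsc2 n b b' hn)
  · intro y
    induction y using Quotient.inductionOn' with
    | h d =>
      obtain ⟨m, hm⟩ := hB d
      refine ⟨Quotient.mk'' ⟨(ψ ^ m) d, hm⟩, ?_⟩
      rw [Quotient.map'_mk'']
      refine Quotient.sound' ?_
      have h1 : Perm.SameCycle ψ d ((ψ ^ m) d) := ⟨(m : ℤ), by rw [zpow_natCast]⟩
      exact h1.symm

end Pool.Agent.NTA
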